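import Pool.Agent.TH696.Keller3

/-!
# A fifteen-dimensional map with all Jacobian eigenvalues equal to one

Companion linearisation of the Keller map of `Keller3`.
-/

set_option autoImplicit false

namespace Pool.Agent.TH696

open Matrix

/-- The map `ℝ¹⁵ → ℝ¹⁵`. -/
noncomputable def G15 (X : Fin 15 → ℝ) : Fin 15 → ℝ :=
  ![X 0 + X 14 * X 3,
    X 1 + X 14 * (-3 * X 0 * X 2 + X 5),
    X 2 + X 14 * (-8 * X 1 ^ 2 + X 9),
    X 3 + X 14 * (3 * X 0 ^ 2 * X 1 + X 4),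
    X 4 + X 14 * (X 0 ^ 3 * X 2),
    X 5 + X 14 * (-24 * X 0 * X 1 ^ 2 + X 6),
    X 6 + X 14 * (-12 * X 0 ^ 2 * X 1 * X 2 + X 7),
    X 7 + X 14 * (-36 * X 0 ^ 2 * X 1 ^ 3 + X 8),
    X 8 + X 14 * (-12 * X 0 ^ 3 * X 1 ^ 2 * X 2),
    X 9 + X 14 * (-6 * X 0 * X 1 * X 2 + X 10),
    X 10 + X 14 * (-28 * X 0 * X 1 ^ 3 + X 11),
    X 11 + X 14 * (-12 * X 0 ^ 2 * X 1 ^ 2 * X 2 + X 12),
    X 12 + X 14 * (-24 * X 0 ^ 2 * X 1 ^ 4 + X 13),
    X 13 + X 14 * (-8 * X 0 ^ 3 * X 1 ^ 3 * X 2),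
    X 14]

theorem G15_contDiff : ContDiff ℝ 1 G15 := by
  unfold G15
  rw [contDiff_pi]
  intro i
  fin_cases i <;> simp <;> fun_prop

/-- Directional derivative of `G15`. -/
noncomputable def D15 {R : Type*} [CommRing R] (X v : Fin 15 → R) : Fin 15 → R :=
  ![v 0 + (v 14 * X 3 + X 14 * v 3),
    v 1 + (v 14 * (-3 * X 0 * X 2 + X 5) + X 14 * (-3 * (v 0 * X 2 + X 0 * v 2) + v 5)),
    v 2 + (v 14 * (-8 * X 1 ^ 2 + X 9) + X 14 * (-16 * X 1 * v 1 + v 9)),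
    v 3 + (v 14 * (3 * X 0 ^ 2 * X 1 + X 4) + X 14 * (6 * X 0 * X 1 * v 0 + 3 * X 0 ^ 2 * v 1 + v 4)),
    v 4 + (v 14 * (X 0 ^ 3 * X 2) + X 14 * (3 * X 0 ^ 2 * X 2 * v 0 + X 0 ^ 3 * v 2)),
    v 5 + (v 14 * (-24 * X 0 * X 1 ^ 2 + X 6)
      + X 14 * (-24 * X 1 ^ 2 * v 0 - 48 * X 0 * X 1 * v 1 + v 6)),
    v 6 + (v 14 * (-12 * X 0 ^ 2 * X 1 * X 2 + X 7)
      + X 14 * (-24 * X 0 * X 1 * X 2 * v 0 - 12 * X 0 ^ 2 * X 2 * v 1 - 12 * X 0 ^ 2 * X 1 * v 2 + v 7)),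
    v 7 + (v 14 * (-36 * X 0 ^ 2 * X 1 ^ 3 + X 8)
      + X 14 * (-72 * X 0 * X 1 ^ 3 * v 0 - 108 * X 0 ^ 2 * X 1 ^ 2 * v 1 + v 8)),
    v 8 + (v 14 * (-12 * X 0 ^ 3 * X 1 ^ 2 * X 2)
      + X 14 * (-36 * X 0 ^ 2 * X 1 ^ 2 * X 2 * v 0 - 24 * X 0 ^ 3 * X 1 * X 2 * v 1
        - 12 * X 0 ^ 3 * X 1 ^ 2 * v 2)),
    v 9 + (v 14 * (-6 * X 0 * X 1 * X 2 + X 10)
      + X 14 * (-6 * X 1 * X 2 * v 0 - 6 * X 0 * X 2 * v 1 - 6 * X 0 * X 1 * v 2 + v 10)),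
    v 10 + (v 14 * (-28 * X 0 * X 1 ^ 3 + X 11)
      + X 14 * (-28 * X 1 ^ 3 * v 0 - 84 * X 0 * X 1 ^ 2 * v 1 + v 11)),
    v 11 + (v 14 * (-12 * X 0 ^ 2 * X 1 ^ 2 * X 2 + X 12)
      + X 14 * (-24 * X 0 * X 1 ^ 2 * X 2 * v 0 - 24 * X 0 ^ 2 * X 1 * X 2 * v 1
        - 12 * X 0 ^ 2 * X 1 ^ 2 * v 2 + v 12)),
    v 12 + (v 14 * (-24 * X 0 ^ 2 * X 1 ^ 4 + X 13)
      + X 14 * (-48 * X 0 * X 1 ^ 4 * v 0 - 96 * X 0 ^ 2 * X 1 ^ 3 * v 1 + v 13)),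
    v 13 + (v 14 * (-8 * X 0 ^ 3 * X 1 ^ 3 * X 2)
      + X 14 * (-24 * X 0 ^ 2 * X 1 ^ 3 * X 2 * v 0 - 24 * X 0 ^ 3 * X 1 ^ 2 * X 2 * v 1
        - 8 * X 0 ^ 3 * X 1 ^ 3 * v 2)),
    v 14]

theorem hasDerivAt_line (X v : Fin 15 → ℝ) (i : Fin 15) :
    HasDerivAt (fun t : ℝ => G15 (X + t • v) i) (D15 X v i) 0 := by
  have h : ∀ j : Fin 15, HasDerivAt (fun t : ℝ => X j + t * v j) (v j) 0 := by
    intro j
    simpa using ((hasDerivAt_id (0 : ℝ)).mul_const (v j)).const_add (X j)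
  have h0 := h 0
  have h1 := h 1
  have h2 := h 2
  have h14 := h 14
  fin_cases i
  · exact ((h 0).add ((h14).mul (h 3))).congr_deriv (by simp [D15])
  · exact ((h 1).add (h14.mul (((h0.const_mul (-3)).mul h2).add (h 5)))).congr_deriv (by simp [D15, -mul_eq_mul_left_iff]; ring)
  · exact ((h 2).add (h14.mul (((h1.pow 2).const_mul (-8)).add (h 9)))).congr_deriv (by simp [D15, -mul_eq_mul_left_iff]; ring)
  · exact ((h 3).add (h14.mul ((((h0.pow 2).const_mul 3).mul h1).add (h 4)))).congr_deriv (by simp [D15, -mul_eq_mul_left_iff]; ring)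
  · exact ((h 4).add (h14.mul ((h0.pow 3).mul h2))).congr_deriv (by simp [D15, -mul_eq_mul_left_iff]; ring)
  · exact ((h 5).add (h14.mul (((h0.const_mul (-24)).mul (h1.pow 2)).add (h 6)))).congr_deriv (by simp [D15, -mul_eq_mul_left_iff]; ring)
  · exact ((h 6).add (h14.mul (((((h0.pow 2).const_mul (-12)).mul h1).mul h2).add (h 7)))).congr_deriv (by simp [D15, -mul_eq_mul_left_iff]; ring)
  · exact ((h 7).add (h14.mul ((((h0.pow 2).const_mul (-36)).mul (h1.pow 3)).add (h 8)))).congr_deriv (by simp [D15, -mul_eq_mul_left_iff]; ring)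
  · exact ((h 8).add (h14.mul ((((h0.pow 3).const_mul (-12)).mul (h1.pow 2)).mul h2))).congr_deriv (by simp [D15, -mul_eq_mul_left_iff]; ring)
  · exact ((h 9).add (h14.mul ((((h0.const_mul (-6)).mul h1).mul h2).add (h 10)))).congr_deriv (by simp [D15, -mul_eq_mul_left_iff]; ring)
  · exact ((h 10).add (h14.mul (((h0.const_mul (-28)).mul (h1.pow 3)).add (h 11)))).congr_deriv (by simp [D15, -mul_eq_mul_left_iff]; ring)
  · exact ((h 11).add (h14.mul (((((h0.pow 2).const_mul (-12)).mul (h1.pow 2)).mul h2).add (h 12)))).congr_deriv (by simp [D15, -mul_eq_mul_left_iff]; ring)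
  · exact ((h 12).add (h14.mul ((((h0.pow 2).const_mul (-24)).mul (h1.pow 4)).add (h 13)))).congr_deriv (by simp [D15, -mul_eq_mul_left_iff]; ring)
  · exact ((h 13).add (h14.mul ((((h0.pow 3).const_mul (-8)).mul (h1.pow 3)).mul h2))).congr_deriv (by simp [D15, -mul_eq_mul_left_iff]; ring)
  · exact h14

theorem fderiv_G15 (X v : Fin 15 → ℝ) : fderiv ℝ G15 X v = D15 X v := by
  have hd : HasFDerivAt G15 (fderiv ℝ G15 X) X :=
    (G15_contDiff.differentiable (by norm_num) X).hasFDerivAt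
  have hl : HasDerivAt (fun t : ℝ => X + t • v) v 0 := by
    simpa using ((hasDerivAt_id (0 : ℝ)).smul_const v).const_add X
  have hd' : HasFDerivAt G15 (fderiv ℝ G15 X) (X + (0 : ℝ) • v) := by simpa using hd
  have hc := hd'.comp_hasDerivAt (0 : ℝ) hl
  have hp : HasDerivAt (G15 ∘ fun t : ℝ => X + t • v) (D15 X v) 0 := by
    rw [hasDerivAt_pi]
    intro i
    exact hasDerivAt_line X v i
  exact hc.unique hp

/-- Over a field, an eigenvector of the (formal) Jacobian with eigenvalue `≠ 1` vanishes. -/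
theorem eig15 {K : Type*} [Field K] (X v : Fin 15 → K) (z : K) (hz : z ≠ 1)
    (h : D15 X v = z • v) : v = 0 := by
  have hk : (1 - z) ≠ 0 := sub_ne_zero.mpr (Ne.symm hz)
  have e : ∀ i, D15 X v i = z * v i := fun i => by rw [h]; rfl
  have e0 := e 0
  have e1 := e 1
  have e2 := e 2
  have e3 := e 3
  have e4 := e 4
  have e5 := e 5
  have e6 := e 6
  have e7 := e 7
  have e8 := e 8
  have e9 := e 9
  have e10 := e 10
  have e11 := e 11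
  have e12 := e 12
  have e13 := e 13
  have e14 := e 14
  have t0 : v 14 = 0 := by
    have : (1 - z) * v 14 = 0 := by
      have : v 14 = z * v 14 := e14
      linear_combination this
    rcases mul_eq_zero.mp this with h | h
    · exact absurd h hk
    · exact h
  obtain ⟨s, hs⟩ : ∃ s, X 14 = s * (1 - z) := ⟨X 14 / (1 - z), by field_simp⟩
  have c : ∀ a : K, (1 - z) * a = 0 → a = 0 := fun a ha => by
    rcases mul_eq_zero.mp ha with h | h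
    · exact absurd h hk
    · exact h
  simp only [D15, cons_val, t0, hs, zero_mul, zero_add] at e0 e1 e2 e3 e4 e5 e6 e7 e8 e9 e10 e11 e12 e13
  have f0 : v 0 + s * v 3 = 0 := c _ (by linear_combination e0)
  have f1 : v 1 + s * (-3 * (v 0 * X 2 + X 0 * v 2) + v 5) = 0 := c _ (by linear_combination e1)
  have f2 : v 2 + s * (-16 * X 1 * v 1 + v 9) = 0 := c _ (by linear_combination e2)
  have f3 : v 3 + s * (6 * X 0 * X 1 * v 0 + 3 * X 0 ^ 2 * v 1 + v 4) = 0 :=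
    c _ (by linear_combination e3)
  have f4 : v 4 + s * (3 * X 0 ^ 2 * X 2 * v 0 + X 0 ^ 3 * v 2) = 0 :=
    c _ (by linear_combination e4)
  have f5 : v 5 + s * (-24 * X 1 ^ 2 * v 0 - 48 * X 0 * X 1 * v 1 + v 6) = 0 :=
    c _ (by linear_combination e5)
  have f6 : v 6 + s * (-24 * X 0 * X 1 * X 2 * v 0 - 12 * X 0 ^ 2 * X 2 * v 1
      - 12 * X 0 ^ 2 * X 1 * v 2 + v 7) = 0 :=
    c _ (by linear_combination e6)
  have f7 : v 7 + s * (-72 * X 0 * X 1 ^ 3 * v 0 - 108 * X 0 ^ 2 * X 1 ^ 2 * v 1 + v 8) = 0 :=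
    c _ (by linear_combination e7)
  have f8 : v 8 + s * (-36 * X 0 ^ 2 * X 1 ^ 2 * X 2 * v 0 - 24 * X 0 ^ 3 * X 1 * X 2 * v 1
        - 12 * X 0 ^ 3 * X 1 ^ 2 * v 2) = 0 :=
    c _ (by linear_combination e8)
  have f9 : v 9 + s * (-6 * X 1 * X 2 * v 0 - 6 * X 0 * X 2 * v 1 - 6 * X 0 * X 1 * v 2 + v 10) = 0 :=
    c _ (by linear_combination e9)
  have f10 : v 10 + s * (-28 * X 1 ^ 3 * v 0 - 84 * X 0 * X 1 ^ 2 * v 1 + v 11) = 0 :=
    c _ (by linear_combination e10)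
  have f11 : v 11 + s * (-24 * X 0 * X 1 ^ 2 * X 2 * v 0 - 24 * X 0 ^ 2 * X 1 * X 2 * v 1
        - 12 * X 0 ^ 2 * X 1 ^ 2 * v 2 + v 12) = 0 :=
    c _ (by linear_combination e11)
  have f12 : v 12 + s * (-48 * X 0 * X 1 ^ 4 * v 0 - 96 * X 0 ^ 2 * X 1 ^ 3 * v 1 + v 13) = 0 :=
    c _ (by linear_combination e12)
  have f13 : v 13 + s * (-24 * X 0 ^ 2 * X 1 ^ 3 * X 2 * v 0 - 24 * X 0 ^ 3 * X 1 ^ 2 * X 2 * v 1
        - 8 * X 0 ^ 3 * X 1 ^ 3 * v 2) = 0 :=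
    c _ (by linear_combination e13)
  have key : KJ (s * X 0) (s * X 1) (s * X 2) *ᵥ ![v 0, v 1, v 2] = 0 := by
    ext i
    fin_cases i
    · simp [KJ, Matrix.mulVec, dotProduct, Fin.sum_univ_three]
      linear_combination f0 - s * f3 + s ^ 2 * f4
    · simp [KJ, Matrix.mulVec, dotProduct, Fin.sum_univ_three]
      linear_combination f1 - s * f5 + s ^ 2 * f6 - s ^ 3 * f7 + s ^ 4 * f8
    · simp [KJ, Matrix.mulVec, dotProduct, Fin.sum_univ_three]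
      linear_combination f2 - s * f9 + s ^ 2 * f10 - s ^ 3 * f11 + s ^ 4 * f12 - s ^ 5 * f13
  have hv := Matrix.eq_zero_of_mulVec_eq_zero
    (by rw [KJ_det]; exact one_ne_zero) key
  have v0 : v 0 = 0 := by simpa using congrFun hv 0
  have v1 : v 1 = 0 := by simpa using congrFun hv 1
  have v2 : v 2 = 0 := by simpa using congrFun hv 2
  have v4 : v 4 = 0 := by simpa [v0, v1, v2] using f4
  have v3 : v 3 = 0 := by simpa [v0, v1, v2, v4] using f3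
  have v8 : v 8 = 0 := by simpa [v0, v1, v2] using f8
  have v7 : v 7 = 0 := by simpa [v0, v1, v2, v8] using f7
  have v6 : v 6 = 0 := by simpa [v0, v1, v2, v7] using f6
  have v5 : v 5 = 0 := by simpa [v0, v1, v2, v6] using f5
  have v13 : v 13 = 0 := by simpa [v0, v1, v2] using f13
  have v12 : v 12 = 0 := by simpa [v0, v1, v2, v13] using f12
  have v11 : v 11 = 0 := by simpa [v0, v1, v2, v12] using f11
  have v10 : v 10 = 0 := by simpa [v0, v1, v2, v11] using f10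
  have v9 : v 9 = 0 := by simpa [v0, v1, v2, v10] using f9
  ext i
  fin_cases i <;> assumption

/-- Complexified Jacobian acting on a complex vector. -/
theorem mulVec_eq_D15 (X : Fin 15 → ℝ) (v : Fin 15 → ℂ) :
    ((LinearMap.toMatrix' ((fderiv ℝ G15 X : (Fin 15 → ℝ) →L[ℝ] (Fin 15 → ℝ)) :
          (Fin 15 → ℝ) →ₗ[ℝ] (Fin 15 → ℝ))).map (algebraMap ℝ ℂ)) *ᵥ v
      = D15 (fun i => (X i : ℂ)) v := by
  have hM : ∀ w : Fin 15 → ℝ, (LinearMap.toMatrix' ((fderiv ℝ G15 X : (Fin 15 → ℝ) →L[ℝ] (Fin 15 → ℝ)) :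
          (Fin 15 → ℝ) →ₗ[ℝ] (Fin 15 → ℝ))) *ᵥ w = D15 X w := by
    intro w
    rw [LinearMap.toMatrix'_mulVec]
    exact fderiv_G15 X w
  generalize (LinearMap.toMatrix' ((fderiv ℝ G15 X : (Fin 15 → ℝ) →L[ℝ] (Fin 15 → ℝ)) :
          (Fin 15 → ℝ) →ₗ[ℝ] (Fin 15 → ℝ))) = M at hM
  have h1 : (M.map (algebraMap ℝ ℂ)) *ᵥ v
      = fun i => ((M *ᵥ fun j => (v j).re) i : ℂ) + ((M *ᵥ fun j => (v j).im) i : ℂ) * Complex.I := by
    ext i
    simp only [Matrix.mulVec, dotProduct, Matrix.map_apply]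
    push_cast
    rw [Finset.sum_mul, ← Finset.sum_add_distrib]
    refine Finset.sum_congr rfl fun j _ => ?_
    conv_lhs => rw [← Complex.re_add_im (v j)]
    simp only [Complex.coe_algebraMap]
    ring
  rw [h1, hM, hM]
  have hv : v = fun j => ((v j).re : ℂ) + ((v j).im : ℂ) * Complex.I := by
    ext j
    exact (Complex.re_add_im (v j)).symm
  conv_rhs => rw [hv]
  obtain ⟨a, ha⟩ : ∃ a : Fin 15 → ℝ, a = fun j => (v j).re := ⟨_, rfl⟩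
  obtain ⟨b, hb⟩ : ∃ b : Fin 15 → ℝ, b = fun j => (v j).im := ⟨_, rfl⟩
  have ha' : ∀ j, (v j).re = a j := fun j => by rw [ha]
  have hb' : ∀ j, (v j).im = b j := fun j => by rw [hb]
  simp only [ha', hb']
  ext i
  fin_cases i <;> simp only [D15, cons_val, Fin.mk_one, Fin.zero_eta, Fin.reduceFinMk] <;> push_cast <;> ring

/-- Zeros of the characteristic polynomial of the Jacobian are all equal to one. -/
theorem charpoly_root_eq_one (X : Fin 15 → ℝ) (z : ℂ)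
    (h : Polynomial.aeval z
          (LinearMap.toMatrix' ((fderiv ℝ G15 X : (Fin 15 → ℝ) →L[ℝ] (Fin 15 → ℝ)) :
            (Fin 15 → ℝ) →ₗ[ℝ] (Fin 15 → ℝ))).charpoly = 0) : z = 1 := by
  by_contra hz
  have hmv := mulVec_eq_D15 X
  generalize (LinearMap.toMatrix' ((fderiv ℝ G15 X : (Fin 15 → ℝ) →L[ℝ] (Fin 15 → ℝ)) :
          (Fin 15 → ℝ) →ₗ[ℝ] (Fin 15 → ℝ))) = M at hmv h
  have h1 : (M.map (algebraMap ℝ ℂ)).charpoly.eval z = 0 := by
    rw [Matrix.charpoly_map, Polynomial.eval_map_algebraMap]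
    exact h
  rw [Matrix.eval_charpoly] at h1
  obtain ⟨v, hv0, hv⟩ := Matrix.exists_mulVec_eq_zero_iff.mpr h1
  apply hv0
  apply eig15 (fun i => (X i : ℂ)) v z hz
  rw [← hmv]
  rw [Matrix.sub_mulVec, sub_eq_zero] at hv
  rw [← hv]
  ext i
  simp

theorem G15_det_ne_zero (X : Fin 15 → ℝ) :
    (LinearMap.toMatrix' ((fderiv ℝ G15 X : (Fin 15 → ℝ) →L[ℝ] (Fin 15 → ℝ)) :
          (Fin 15 → ℝ) →ₗ[ℝ] (Fin 15 → ℝ))).det ≠ 0 := by
  intro h
  obtain ⟨v, hv0, hv⟩ := Matrix.exists_mulVec_eq_zero_iff.mpr h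
  apply hv0
  apply eig15 X v 0 zero_ne_one
  rw [LinearMap.toMatrix'_mulVec] at hv
  rw [zero_smul, ← hv]
  exact (fderiv_G15 X v).symm

/-- chain values at a point `(x,y,z)` making all auxiliary components vanish at `T = 1` -/
noncomputable def lift15 (x y z : ℝ) : Fin 15 → ℝ :=
  ![x, y, z,
    -(3 * x ^ 2 * y) + x ^ 3 * z,
    -(x ^ 3 * z),
    24 * x * y ^ 2 - 12 * x ^ 2 * y * z + 36 * x ^ 2 * y ^ 3 - 12 * x ^ 3 * y ^ 2 * z,
    12 * x ^ 2 * y * z - 36 * x ^ 2 * y ^ 3 + 12 * x ^ 3 * y ^ 2 * z,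
    36 * x ^ 2 * y ^ 3 - 12 * x ^ 3 * y ^ 2 * z,
    12 * x ^ 3 * y ^ 2 * z,
    6 * x * y * z - 28 * x * y ^ 3 + 12 * x ^ 2 * y ^ 2 * z - 24 * x ^ 2 * y ^ 4
      + 8 * x ^ 3 * y ^ 3 * z,
    28 * x * y ^ 3 - 12 * x ^ 2 * y ^ 2 * z + 24 * x ^ 2 * y ^ 4 - 8 * x ^ 3 * y ^ 3 * z,
    12 * x ^ 2 * y ^ 2 * z - 24 * x ^ 2 * y ^ 4 + 8 * x ^ 3 * y ^ 3 * z,
    24 * x ^ 2 * y ^ 4 - 8 * x ^ 3 * y ^ 3 * z,
    8 * x ^ 3 * y ^ 3 * z,
    1]

theorem G15_lift (x y z : ℝ) :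
    G15 (lift15 x y z) = ![K1 x y z, K2 x y z, K3 x y z, 0, 0, 0, 0, 0, 0, 0, 0, 0, 0, 0, 1] := by
  ext i
  fin_cases i <;>
    simp only [G15, lift15, K1, K2, K3, cons_val, Fin.mk_one, Fin.zero_eta, Fin.reduceFinMk] <;> ring

theorem G15_not_injective : ¬ Function.Injective G15 := by
  intro h
  have h1 : G15 (lift15 (-1/2) 1 (-18)) = G15 (lift15 (1/6) (-2) 144) := by
    rw [G15_lift, G15_lift]
    have e1 : K1 (-1/2 : ℝ) 1 (-18) = K1 (1/6) (-2) 144 := by norm_num [K1]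
    have e2 : K2 (-1/2 : ℝ) 1 (-18) = K2 (1/6) (-2) 144 := by norm_num [K2]
    have e3 : K3 (-1/2 : ℝ) 1 (-18) = K3 (1/6) (-2) 144 := by norm_num [K3]
    rw [e1, e2, e3]
  have h2 := congrFun (h h1) 1
  simp only [lift15, cons_val] at h2
  norm_num at h2

end Pool.Agent.TH696
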