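import Mathlib

/-!
# An explicit non-injective Keller map in dimension three

`F (x, y, z) = (F₁, F₂, F₃)` with

* `F₁ = x - 3 x² y + x³ z`
* `F₂ = y - 3 x z + 24 x y² - 12 x² y z + 36 x² y³ - 12 x³ y² z`
* `F₃ = z - 8 y² + 6 x y z - 28 x y³ + 12 x² y² z - 24 x² y⁴ + 8 x³ y³ z`

has Jacobian determinant identically `1` and takes the same value at
`(-1/2, 1, -18)` and `(1/6, -2, 144)`.
-/

set_option autoImplicit false

namespace Pool.Agent.TH696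

section
variable {R : Type*} [CommRing R]

/-- first component -/
def K1 (x y z : R) : R := x - 3 * x ^ 2 * y + x ^ 3 * z

/-- second component -/
def K2 (x y z : R) : R :=
  y - 3 * x * z + 24 * x * y ^ 2 - 12 * x ^ 2 * y * z + 36 * x ^ 2 * y ^ 3 - 12 * x ^ 3 * y ^ 2 * z

/-- third component -/
def K3 (x y z : R) : R :=
  z - 8 * y ^ 2 + 6 * x * y * z - 28 * x * y ^ 3 + 12 * x ^ 2 * y ^ 2 * z - 24 * x ^ 2 * y ^ 4
    + 8 * x ^ 3 * y ^ 3 * z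

/-- The Jacobian matrix of `(K1, K2, K3)`. -/
def KJ (x y z : R) : Matrix (Fin 3) (Fin 3) R :=
  !![1 - 6 * x * y + 3 * x ^ 2 * z, -3 * x ^ 2, x ^ 3;
     -3 * z + 24 * y ^ 2 - 24 * x * y * z + 72 * x * y ^ 3 - 36 * x ^ 2 * y ^ 2 * z,
     1 + 48 * x * y - 12 * x ^ 2 * z + 108 * x ^ 2 * y ^ 2 - 24 * x ^ 3 * y * z,
     -3 * x - 12 * x ^ 2 * y - 12 * x ^ 3 * y ^ 2;
     6 * y * z - 28 * y ^ 3 + 24 * x * y ^ 2 * z - 48 * x * y ^ 4 + 24 * x ^ 2 * y ^ 3 * z,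
     -16 * y + 6 * x * z - 84 * x * y ^ 2 + 24 * x ^ 2 * y * z - 96 * x ^ 2 * y ^ 3
       + 24 * x ^ 3 * y ^ 2 * z,
     1 + 6 * x * y + 12 * x ^ 2 * y ^ 2 + 8 * x ^ 3 * y ^ 3]

/-- The Jacobian determinant is identically one. -/
theorem KJ_det (x y z : R) : (KJ x y z).det = 1 := by
  rw [Matrix.det_fin_three]
  simp [KJ]
  ring

end

end Pool.Agent.TH696
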